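import Pool.Agent.Helper89.OC.St2

/-!
# OC MODULE RB (MP_2b6189_al): the rank bound
-/

set_option autoImplicit false

namespace Pool.Agent.Helper60.OC

open Matrix ComplexConjugate Pool.Agent.Helper94.YF Pool.Agent.Helper94.YG
  Pool.Agent.Helper89.OS Pool.Agent.Helper89.OC

section

variable {I : Type} [Fintype I] [DecidableEq I] {p : ℕ}

theorem mem_Ks (X : PD I p 1) (k : I) :
    k ∈ Ks X ↔ X.y k ≠ 0 ∧ X.t k = 1 ∧ k ≠ X.o := by
  simp only [Ks, Finset.mem_filter, Finset.mem_univ, true_and]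

theorem row_total (X : PD I p 1) (k : I) : ∑ j, ‖X.s k j‖ ^ 2 = (p : ℝ) ^ 2 := by
  have h := X.s_uni k k
  rw [if_pos rfl] at h
  apply Complex.ofReal_injective
  push_cast
  rw [← h]
  refine Finset.sum_congr rfl fun j _ => ?_
  rw [Complex.mul_conj']

theorem s_o' (X : PD I p 1) (k : I) : X.s X.o k = X.y k := by
  rw [X.s_symm, X.s_o]

theorem sum_yy (X : PD I p 1) : ∑ j, (X.y j : ℝ) ^ 2 = (p : ℝ) ^ 2 := by
  rw [← row_total X X.o]
  refine Finset.sum_congr rfl fun j _ => ?_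
  rw [s_o', Complex.norm_intCast, sq_abs]

open Classical in
/-- the part `t ≠ 1` of the row `k` -/
noncomputable def A2 (X : PD I p 1) (k : I) : ℝ :=
  ∑ j, if X.t j = 1 then 0 else ‖X.s k j‖ ^ 2

open Classical in
theorem A2_eq [NeZero p] (X : PD I p 1) (k : I) (htk : X.t k = 1) (S : ℝ)
    (hS : ∑ c, X.s k (X.pi c k) = (S : ℂ)) : A2 X k = (p : ℝ) ^ 2 - p - S := by
  have h1 : (∑ j, if X.t j = 1 then ‖X.s k j‖ ^ 2 else 0) = (p : ℝ) + S := by
    have h12 := Helper82.OS.part_a X k htk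
    rw [hS] at h12
    apply Complex.ofReal_injective
    rw [Complex.ofReal_sum]
    have h14 : ∀ j ∈ (Finset.univ : Finset I),
        (((if X.t j = 1 then ‖X.s k j‖ ^ 2 else 0 : ℝ)) : ℂ) =
          if X.t j = 1 then ((‖X.s k j‖ ^ 2 : ℝ) : ℂ) else 0 := by
      intro j _
      split_ifs
      · rfl
      · exact Complex.ofReal_zero
    rw [Finset.sum_congr rfl h14, h12]
    push_cast
    rfl
  have h2 : A2 X k + (∑ j, if X.t j = 1 then ‖X.s k j‖ ^ 2 else 0) = (p : ℝ) ^ 2 := by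
    rw [← row_total X k, A2, ← Finset.sum_add_distrib]
    refine Finset.sum_congr rfl fun j _ => ?_
    split_ifs <;> ring
  linarith

open Classical in
theorem sum_y_ne (X : PD I p 1) :
    (∑ j, if X.t j = 1 then 0 else (X.y j : ℝ) ^ 2) = ((p : ℝ) - 1) * (gX X : ℝ) := by
  have h1 := (Helper39.OS.hMZZ I p X).2.1
  have h2 : (∑ j, if X.t j = 1 then (X.y j : ℝ) ^ 2 else 0) =
      (p : ℝ) + (p - 1) * (X.y X.o : ℝ) := by
    exact_mod_cast congrArg (fun z : ℤ => (z : ℝ)) h1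
  have h3 : (∑ j, if X.t j = 1 then 0 else (X.y j : ℝ) ^ 2) +
      (∑ j, if X.t j = 1 then (X.y j : ℝ) ^ 2 else 0) = (p : ℝ) ^ 2 := by
    rw [← sum_yy X, ← Finset.sum_add_distrib]
    refine Finset.sum_congr rfl fun j _ => ?_
    split_ifs <;> ring
  have h4 : (gX X : ℝ) = (p : ℝ) - X.y X.o := by
    simp [gX]
  rw [h4]
  linear_combination h3 - h2

theorem sum_Ks_y (X : PD I p 1) :
    ∑ k ∈ Ks X, (X.y k : ℝ) ^ 2 = (gX X : ℝ) * (p + 1 - gX X) := by
  classical
  have h1 := (Helper39.OS.hMZZ I p X).2.1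
  have h2 : (∑ j, if X.t j = 1 then (X.y j : ℝ) ^ 2 else 0) =
      (p : ℝ) + (p - 1) * (X.y X.o : ℝ) := by
    exact_mod_cast congrArg (fun z : ℤ => (z : ℝ)) h1
  have h3 : (∑ j, if X.t j = 1 then (X.y j : ℝ) ^ 2 else 0) =
      (X.y X.o : ℝ) ^ 2 + ∑ k ∈ Ks X, (X.y k : ℝ) ^ 2 := by
    rw [← Finset.sum_insert (s := Ks X) (a := X.o) (f := fun k => (X.y k : ℝ) ^ 2)
      (fun h => ((mem_Ks X _).1 h).2.2 rfl)]
    symm
    rw [← Finset.sum_filter]
    refine Finset.sum_subset ?_ ?_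
    · intro k hk
      rcases Finset.mem_insert.1 hk with rfl | hk
      · exact Finset.mem_filter.2 ⟨Finset.mem_univ _, X.t_o⟩
      · exact Finset.mem_filter.2 ⟨Finset.mem_univ _, ((mem_Ks X _).1 hk).2.1⟩
    · intro k hk hk'
      have hy : X.y k = 0 := by
        by_contra hy
        apply hk'
        by_cases hko : k = X.o
        · rw [hko]
          exact Finset.mem_insert_self _ _
        · exact Finset.mem_insert_of_mem
            ((mem_Ks X _).2 ⟨hy, (Finset.mem_filter.1 hk).2, hko⟩)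
      rw [hy]
      simp
  have h4 : (gX X : ℝ) = (p : ℝ) - X.y X.o := by
    simp [gX]
  rw [h4]
  linear_combination h2 - h3

theorem A2_o [NeZero p] (X : PD I p 1) : A2 X X.o = ((p : ℝ) - 1) * (gX X : ℝ) := by
  classical
  rw [← sum_y_ne X, A2]
  refine Finset.sum_congr rfl fun j _ => ?_
  rw [s_o', Complex.norm_intCast, sq_abs]

theorem A2_Ks [NeZero p] (hTS2 : StTS2) (hORB : Helper89.OC.StORB) (X : PD I p 1) (Q : ℂ → Prop)
    (hB : Blk X Q) (hg : (gX X : ℝ) ≠ 0) (k : I) (hk : k ∈ Ks X) :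
    A2 X k = ((p : ℝ) - 1) * (p * (1 - 1 / ((Orb X k).card : ℝ)) +
      (X.y k : ℝ) ^ 2 / (gX X : ℝ)) := by
  classical
  obtain ⟨hyk, htk, hko⟩ := (mem_Ks X k).1 hk
  have hO := hORB I p X
  have h1 := (hTS2 hORB I p X Q hB k hk).1 k
  have hkO := hO.self k
  have hr : ((Orb X k).card : ℝ) ≠ 0 := by
    have : 0 < (Orb X k).card := Finset.card_pos.2 ⟨k, hkO⟩
    exact_mod_cast this.ne'
  have hrC : ((Orb X k).card : ℂ) ≠ 0 := by exact_mod_cast hr
  have hgC : (gX X : ℂ) ≠ 0 := by exact_mod_cast hg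
  rw [if_pos hkO, if_neg hko, mul_zero, add_zero, mul_one] at h1
  have h2 : ∑ l, X.s k l * ((gX X : ℂ) * (if l ∈ Orb X k then 1 else 0) +
      ((Orb X k).card : ℂ) * X.y k * (if l = X.o then 1 else 0)) =
      (gX X : ℂ) * ∑ l ∈ Orb X k, X.s k l + ((Orb X k).card : ℂ) * X.y k * X.y k := by
    have h3 : ∀ l, X.s k l * ((gX X : ℂ) * (if l ∈ Orb X k then 1 else 0) +
        ((Orb X k).card : ℂ) * X.y k * (if l = X.o then 1 else 0)) =
        (if l ∈ Orb X k then (gX X : ℂ) * X.s k l else 0) +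
          (if l = X.o then ((Orb X k).card : ℂ) * X.y k * X.s k l else 0) := by
      intro l
      split_ifs <;> ring
    simp only [h3]
    rw [Finset.sum_add_distrib, ← Finset.sum_filter, Finset.filter_mem_eq_inter,
      Finset.univ_inter, ← Finset.mul_sum, Finset.sum_ite_eq' Finset.univ X.o,
      if_pos (Finset.mem_univ _), X.s_o]
  rw [h2] at h1
  have h4 := hO.sum k (fun i => X.s k i)
  have h5 : ∑ c, X.s k (X.pi c k) = (((((p : ℝ) - 1) * (p / ((Orb X k).card : ℝ) -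
      (X.y k : ℝ) ^ 2 / (gX X : ℝ)) : ℝ)) : ℂ) := by
    push_cast
    have h6 : ((Orb X k).card : ℂ) * (gX X : ℂ) * ∑ c, X.s k (X.pi c k) =
        ((p : ℂ) - 1) * (p * gX X - ((Orb X k).card : ℂ) * X.y k * X.y k) := by
      linear_combination (gX X : ℂ) * h4 + ((p : ℂ) - 1) * h1
    field_simp
    linear_combination h6
  rw [A2_eq X k htk _ h5]
  field_simp
  ring

end

theorem hRB : StRB := by
  classical
  intro hIB hTS2 hORB hE3 hE2 hE4 I _ _ p _ X Q hB
  have hM := Helper39.OS.hMZZ I p X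
  have hg2 : (2 : ℝ) ≤ (gX X : ℝ) := by
    have : (2 : ℤ) ≤ gX X := hM.2.2.2.2.1
    exact_mod_cast this
  have hg0 : (gX X : ℝ) ≠ 0 := by linarith
  have hp1 : (1 : ℝ) < (p : ℝ) := by exact_mod_cast X.prime.one_lt
  have hyo : X.y X.o ≠ 0 := by
    intro h
    apply hB.x_nd
    rw [h]
    exact dvd_zero _
  have hoK : X.o ∉ Ks X := fun h => ((mem_Ks X _).1 h).2.2 rfl
  -- the left side
  have hL : ∑ k ∈ insert X.o (Ks X), A2 X k = ((p : ℝ) - 1) *
      (p * ∑ k ∈ Ks X, (1 - 1 / ((Orb X k).card : ℝ)) + p + 1) := by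
    rw [Finset.sum_insert hoK, A2_o X,
      Finset.sum_congr rfl fun k hk => A2_Ks hTS2 hORB X Q hB hg0 k hk,
      ← Finset.mul_sum, Finset.sum_add_distrib, ← Finset.mul_sum, ← Finset.sum_div,
      sum_Ks_y X, mul_div_cancel_left₀ _ hg0]
    ring
  -- the right side
  have hR : ∑ k ∈ insert X.o (Ks X), A2 X k ≤
      (2 * (p : ℝ) - ((p : ℝ) - 1) / (gX X : ℝ)) * (((p : ℝ) - 1) * (gX X : ℝ)) := by
    have h1 : ∑ k ∈ insert X.o (Ks X), A2 X k =
        ∑ b, if X.t b = 1 then 0 else ∑ k ∈ insert X.o (Ks X), ‖X.s b k‖ ^ 2 := by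
      simp only [A2]
      rw [Finset.sum_comm]
      refine Finset.sum_congr rfl fun b _ => ?_
      split_ifs with h
      · exact Finset.sum_const_zero
      · exact Finset.sum_congr rfl fun k _ => by rw [X.s_symm]
    rw [h1, ← sum_y_ne X, Finset.mul_sum]
    refine Finset.sum_le_sum fun b _ => ?_
    by_cases htb : X.t b = 1
    · rw [if_pos htb, if_pos htb, mul_zero]
    rw [if_neg htb, if_neg htb]
    by_cases hyb : X.y b = 0
    · rw [hyb]
      have h2 : ∀ k ∈ insert X.o (Ks X), ‖X.s b k‖ ^ 2 = 0 := by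
        intro k hk
        have hyk : X.y k ≠ 0 := by
          rcases Finset.mem_insert.1 hk with rfl | hk
          · exact hyo
          · exact ((mem_Ks X _).1 hk).1
        rw [X.s_symm, hB.sup k b hyk hyb]
        simp
      rw [Finset.sum_congr rfl h2]
      simp
    · have h3 : ∑ k ∈ insert X.o (Ks X), ‖X.s b k‖ ^ 2 ≤
          ∑ k, if X.t k = 1 then ‖X.s b k‖ ^ 2 else 0 := by
        have h4 : ∑ k ∈ insert X.o (Ks X), ‖X.s b k‖ ^ 2 =
            ∑ k ∈ insert X.o (Ks X), if X.t k = 1 then ‖X.s b k‖ ^ 2 else 0 := by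
          refine Finset.sum_congr rfl fun k hk => ?_
          have : X.t k = 1 := by
            rcases Finset.mem_insert.1 hk with rfl | hk
            · exact X.t_o
            · exact ((mem_Ks X _).1 hk).2.1
          rw [if_pos this]
        rw [h4]
        refine Finset.sum_le_sum_of_subset_of_nonneg (Finset.subset_univ _) fun j _ _ => ?_
        split_ifs
        · positivity
        · exact le_refl 0
      have h5 := hIB hE3 hE2 hE4 hORB I p X b htb
      have h6 : (1 : ℝ) ≤ (X.y b : ℝ) ^ 2 := by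
        have : (1 : ℤ) ≤ X.y b ^ 2 := by
          have : 0 < X.y b ^ 2 := by positivity
          omega
        exact_mod_cast this
      have h7 : 2 * (p : ℝ) - ((p : ℝ) - 1) * (X.y b : ℝ) ^ 2 / (gX X : ℝ) ≤
          (2 * (p : ℝ) - ((p : ℝ) - 1) / (gX X : ℝ)) * (X.y b : ℝ) ^ 2 := by
        have h8 : 2 * (p : ℝ) ≤ 2 * (p : ℝ) * (X.y b : ℝ) ^ 2 :=
          le_mul_of_one_le_right (by linarith) h6
        have h9 : ((p : ℝ) - 1) * (X.y b : ℝ) ^ 2 / (gX X : ℝ) =
            ((p : ℝ) - 1) / (gX X : ℝ) * (X.y b : ℝ) ^ 2 := by ring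
        rw [h9]
        linarith
      exact h3.trans (h5.trans h7)
  rw [hL] at hR
  have h10 : (2 * (p : ℝ) - ((p : ℝ) - 1) / (gX X : ℝ)) * (((p : ℝ) - 1) * (gX X : ℝ)) =
      ((p : ℝ) - 1) * (2 * p * gX X - (p - 1)) := by
    field_simp
  rw [h10] at hR
  have h11 := le_of_mul_le_mul_left hR (by linarith)
  have h12 : (p : ℝ) * ∑ k ∈ Ks X, (1 - 1 / ((Orb X k).card : ℝ)) ≤
      p * (2 * (gX X : ℝ) - 2) := by linarith
  exact le_of_mul_le_mul_left h12 (by linarith)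

end Pool.Agent.Helper60.OC
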